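import Mathlib
import Pool.Agent.Helper187.CC.Stmts

/-! Project CYCLE, task FA (first arrival), helper589. -/

set_option autoImplicit false
open Finset

namespace H187CC

variable {A : Type}

lemma F_improper2 (t : ℝ) (al be : Option A) (w : List A)
    (h : ¬ Proper (al.toList ++ w ++ be.toList)) : F t al be w = 0 := by
  by_cases hw : w = []
  · subst hw
    rw [F_nil, if_pos]
    cases al with
    | none =>
      exfalso
      apply h
      cases be <;> simp [Proper]
    | some a =>
      cases be with
      | none =>
        exfalso
        apply h
        simp [Proper]
      | some b =>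
        by_cases hab : a = b
        · exact ⟨a, rfl, by rw [hab]⟩
        · exfalso
          apply h
          simp [Proper, hab]
  · exact F_improper t al be w hw h

/-- the summand of the first arrival formula -/
noncomputable def faV (t : ℝ) (al be : Option A) (u : List A) (c : A) (v : List A) : ℝ :=
  t ^ u.length * (F t al (some c) u * F t (some c) be v)

lemma vspl_zero_fun (w : List A) : vspl (fun _ _ _ => (0 : ℝ)) w = 0 := by
  induction w with
  | nil => rfl
  | cons a w ih => rw [vspl_cons, ih, add_zero]

lemma fa_improper (t : ℝ) (al be : Option A) (w : List A)
    (h : ¬ Proper (al.toList ++ w ++ be.toList)) : vspl (faV t al be) w = 0 := by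
  rw [← vspl_zero_fun w]
  apply vspl_congr
  intro u c v hw
  unfold faV
  by_cases h1 : Proper (al.toList ++ u ++ (some c).toList)
  · by_cases h2 : Proper ((some c).toList ++ v ++ be.toList)
    · exfalso
      apply h
      rw [hw]
      have h1' : Proper ((al.toList ++ u) ++ [c]) := by simpa using h1
      have h2' : Proper (c :: (v ++ be.toList)) := by simpa using h2
      have h3 := Proper_glue h1' h2'
      simpa using h3
    · rw [F_improper2 t (some c) be v h2, mul_zero, mul_zero]
  · rw [F_improper2 t al (some c) u h1, zero_mul, mul_zero]

lemma fa_all (t : ℝ) (h0 : 0 < t) (h1 : t < 1) (al be : Option A)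
    (hne : ¬ (∃ a, al = some a ∧ be = some a)) (n : ℕ) :
    ∀ w : List A, w.length = n + 1 → (1 - t ^ w.length) * F t al be w = vspl (faV t al be) w := by
  induction n with
  | zero =>
    intro w hw
    obtain ⟨c, rfl⟩ := List.length_eq_one_iff.1 hw
    by_cases hp : Proper (al.toList ++ [c] ++ be.toList)
    · rw [F_rec t h0 h1 al be [c] hp]
      rw [del_cons, del_nil, vspl_cons, vspl_nil]
      have hal : ¬ (∃ a, al = some a ∧ some c = some a) := by
        rintro ⟨a, ha, hca⟩
        cases hca
        subst ha
        exact hp.1 rfl
      have hbe : ¬ (∃ a, some c = some a ∧ be = some a) := by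
        rintro ⟨a, hca, ha⟩
        cases hca
        subst ha
        have h3 : Proper (al.toList ++ ([c] ++ (some c).toList)) := by simpa using hp
        exact (Proper_append_right h3).1 rfl
      unfold faV
      rw [F_nil, F_nil, F_nil, if_neg hne, if_neg hal, if_neg hbe]
      simp
    · rw [F_improper2 t al be [c] hp, fa_improper t al be [c] hp, mul_zero]
  | succ n ih =>
    intro w hw
    by_cases hp : Proper (al.toList ++ w ++ be.toList)
    · have hN : (1 : ℝ) - t ^ (n + 1) ≠ 0 := pow_ne t h0 h1 (n + 1) (by omega)
      have e1 : (1 - t ^ (n + 1)) * ((1 - t ^ w.length) * F t al be w)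
          = del t (fun w' => vspl (faV t al be) w') w := by
        rw [F_rec t h0 h1 al be w hp, ← del_mul]
        apply del_congr
        intro v hv
        have hv' : v.length = n + 1 := by omega
        have h2 := ih v hv'
        rw [hv'] at h2
        exact h2
      have e2 : del t (fun w' => vspl (faV t al be) w') w
          = (1 - t ^ (n + 1)) * vspl (faV t al be) w := by
        rw [del_vspl, ← vspl_mul]
        apply vspl_congr
        intro u c v hsp
        have hlen : u.length + v.length = n + 1 := by
          have := congrArg List.length hsp
          rw [hw, List.length_append, List.length_cons] at this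
          omega
        have hp1 : Proper (al.toList ++ u ++ (some c).toList) := by
          rw [hsp] at hp
          have h3 : Proper ((al.toList ++ u ++ (some c).toList) ++ (v ++ be.toList)) := by
            simpa using hp
          exact Proper_append_left h3
        have hp2 : Proper ((some c).toList ++ v ++ be.toList) := by
          rw [hsp] at hp
          have h3 : Proper ((al.toList ++ u) ++ ((some c).toList ++ v ++ be.toList)) := by
            simpa using hp
          exact Proper_append_right h3
        have r1 := F_rec t h0 h1 al (some c) u hp1
        have r2 := F_rec t h0 h1 (some c) be v hp2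
        have d1 : del t (fun u' => faV t al be u' c v) u
            = (t ^ (u.length - 1) * F t (some c) be v) * del t (F t al (some c)) u := by
          rw [← del_mul]
          apply del_congr
          intro u' hu'
          unfold faV
          have : u'.length = u.length - 1 := by omega
          rw [this]
          ring
        have d2 : del t (fun v' => faV t al be u c v') v
            = (t ^ u.length * F t al (some c) u) * del t (F t (some c) be) v := by
          rw [← del_mul]
          apply del_congr
          intro v' _
          unfold faV
          ring
        rw [d1, d2, ← r1, ← r2]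
        unfold faV
        rcases Nat.eq_zero_or_pos u.length with hu | hu
        · have hv : v.length = n + 1 := by omega
          rw [hu, hv]
          ring
        · obtain ⟨k, hk⟩ : ∃ k, u.length = k + 1 := ⟨u.length - 1, by omega⟩
          rw [hk, ← hlen, hk, Nat.add_sub_cancel]
          ring
      exact mul_left_cancel₀ hN (e1.trans e2)
    · rw [F_improper2 t al be w hp, fa_improper t al be w hp, mul_zero]

theorem taskFA : TaskFA := by
  intro A t h0 h1 al be hne w hw _
  obtain ⟨n, hn⟩ : ∃ n, w.length = n + 1 := by
    have : w.length ≠ 0 := fun h => hw (List.length_eq_zero_iff.1 h)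
    exact ⟨w.length - 1, by omega⟩
  exact fa_all t h0 h1 al be hne n w hn

end H187CC
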